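import Mathlib
import Pool.Agent.TH747.Del.Chain

set_option autoImplicit false
set_option linter.unusedSectionVars false

/-!
The regularity radius of Delone sets and Jordan's theorem.

`X` is regular as soon as its clusters of radius `(31 d + 8 + 3 log₂ J) R` are equivalent, where `J`
is the index of some commutative subgroup of the local group of radius `(11 d + 4) R`.  With
Collins's bound for Jordan's theorem (finite subgroups of `GL_n(ℂ)` have abelian subgroups of index
at most `K ^ n * (n + 1)!`) this gives the bound `O(d log d) R` for all Delone sets.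
-/

namespace Pool.Agent.Results.MP_e6a378_co.AbelianIndex

open Metric Module Pool.Agent.H186R3.Del Pool.Agent.TH747.Del

/-- `X` is a Delone set with covering radius at most `R`: distinct points are at distance at
least some `r > 0`, and every closed ball of radius `R` contains a point of `X`. -/
def IsDelone {V : Type} [MetricSpace V] (X : Set V) (R : ℝ) : Prop :=
  (∃ r : ℝ, 0 < r ∧ ∀ x ∈ X, ∀ y ∈ X, x ≠ y → r ≤ dist x y) ∧ ∀ p : V, ∃ x ∈ X, dist p x ≤ R

/-- All clusters of `X` of radius `ρ` are equivalent. -/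
def ClustersEquivalent {V : Type} [MetricSpace V] (X : Set V) (ρ : ℝ) : Prop :=
  ∀ x ∈ X, ∀ y ∈ X, ∃ g : V ≃ᵢ V, g x = y ∧
    g '' (X ∩ closedBall x ρ) = X ∩ closedBall y ρ

/-- `X` is regular: its symmetry group is transitive on `X`. -/
def Regular {V : Type} [MetricSpace V] (X : Set V) : Prop :=
  ∀ x ∈ X, ∀ y ∈ X, ∃ g : V ≃ᵢ V, g x = y ∧ g '' X = X

/-- The local group of radius `t` at `x`: the isometries of the space that fix `x` and preserve the
cluster of radius `t` at `x`. -/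
noncomputable def LocalGroup {d : ℕ} (X : Set (EuclideanSpace ℝ (Fin d))) (x : EuclideanSpace ℝ (Fin d)) (t : ℝ) :
    Subgroup (EuclideanSpace ℝ (Fin d) ≃ᵢ EuclideanSpace ℝ (Fin d)) :=
  (S X x t).copy {g | g x = x ∧ g '' (X ∩ closedBall x t) = X ∩ closedBall x t} (by
    ext g
    constructor
    · rintro ⟨h1, h2⟩
      refine ⟨h1, ?_⟩
      rw [LS_iff, h1]; exact h2
    · rintro ⟨h1, h2⟩
      refine ⟨h1, ?_⟩
      rw [LS_iff, h1] at h2; exact h2)

/-- Jordan's theorem with Collins's bound (Collins 2007, up to the constant `K`; for `n ≥ 71` the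
index can be taken at most `(n + 1)!`): every finite group of invertible complex `n × n` matrices
has a commutative subgroup of index at most `K ^ n * (n + 1)!`. -/
def JordanCollins : Prop :=
  ∃ K : ℕ, ∀ n : ℕ, ∀ G : Subgroup (Matrix.GeneralLinearGroup (Fin n) ℂ), Finite G →
    ∃ A : Subgroup (Matrix.GeneralLinearGroup (Fin n) ℂ), A ≤ G ∧
      (∀ a ∈ A, ∀ b ∈ A, a * b = b * a) ∧ (A.subgroupOf G).index ≤ K ^ n * (n + 1).factorial

theorem LocalGroup_eq {d : ℕ} (X : Set (E d)) (x : E d) (t : ℝ) : LocalGroup X x t = S X x t :=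
  Subgroup.copy_eq _ _ _

theorem htr_of {d : ℕ} {X : Set (E d)} {ρ : ℝ} (h : ClustersEquivalent X ρ) :
    ∀ x ∈ X, ∀ y ∈ X, ∃ g : E d ≃ᵢ E d, g x = y ∧ LS X g x ρ := by
  intro x hx y hy
  obtain ⟨g, hg1, hg2⟩ := h x hx y hy
  refine ⟨g, hg1, ?_⟩
  rw [LS_iff, hg1]
  exact hg2

/-- the unconditional part -/
theorem part1 (d : ℕ) (R ρ : ℝ) (X : Set (E d)) (J : ℕ) (hR : 0 < R) (hX : IsDelone X R)
    (hcl : ClustersEquivalent X ρ)
    (hJ : ∃ x ∈ X, ∃ A ≤ LocalGroup X x ((11 * d + 4) * R), (∀ a ∈ A, ∀ b ∈ A, a * b = b * a) ∧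
      (A.subgroupOf (LocalGroup X x ((11 * d + 4) * R))).index ≤ J)
    (hρ : (31 * d + 8 + 3 * Real.logb 2 J) * R ≤ ρ) : Regular X := by
  obtain ⟨⟨r, hr, hsep⟩, hcov⟩ := hX
  have htr := htr_of hcl
  obtain ⟨x, hx, A, hA, hcomm, hind⟩ := hJ
  have hd0 : (0 : ℝ) ≤ d := Nat.cast_nonneg d
  have hlogJ : 0 ≤ Real.logb 2 J := by
    rcases Nat.eq_zero_or_pos J with h | h
    · rw [h]; simp
    · exact Real.logb_nonneg (by norm_num) (by exact_mod_cast h)
  have e0 : (11 * (d : ℝ) + 4) * R = 4 * R + 11 * R * d := by ring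
  rw [LocalGroup_eq, e0] at hA hind
  have h5 : 5 * R + 11 * R * d ≤ ρ := by
    refine le_trans ?_ hρ
    have : 0 ≤ (20 * (d : ℝ) + 3 + 3 * Real.logb 2 J) * R := by positivity
    nlinarith
  obtain ⟨hfin, -⟩ := S_near hr hR hsep hcov htr h5 x
  have hab := card_ab hr hR hsep hcov htr h5 x A hA hcomm
  set G := S X x (4 * R + 11 * R * d) with hG
  have hcard : Nat.card G ≤ J * 81 ^ d := by
    have h1 := Subgroup.card_mul_index (A.subgroupOf G)
    have h2 : Nat.card (A.subgroupOf G) = Nat.card A :=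
      Nat.card_congr (Subgroup.subgroupOfEquivOfLe hA).toEquiv
    rw [← h1, h2, mul_comm]
    exact Nat.mul_le_mul hind hab
  have hpos : 1 ≤ Nat.card G := Nat.card_pos
  have hJ1 : 1 ≤ J := by
    rcases Nat.eq_zero_or_pos J with h | h
    · rw [h, zero_mul] at hcard; omega
    · exact h
  set K := Nat.log 2 (J * 81 ^ d) with hK
  have hKle : (3 : ℝ) * K ≤ 20 * d + 3 * Real.logb 2 J := by
    have hne : J * 81 ^ d ≠ 0 := by positivity
    have h1 : (2 : ℝ) ^ K ≤ (J : ℝ) * 81 ^ d := by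
      have := Nat.pow_log_le_self 2 hne
      exact_mod_cast this
    have h2 : (K : ℝ) ≤ Real.logb 2 ((J : ℝ) * 81 ^ d) := by
      rw [Real.le_logb_iff_rpow_le (by norm_num) (by positivity)]
      exact_mod_cast h1
    have h3 : Real.logb 2 ((J : ℝ) * 81 ^ d) = Real.logb 2 J + d * Real.logb 2 81 := by
      rw [Real.logb_mul (by positivity) (by positivity), Real.logb_pow]
    have h4 : 3 * Real.logb 2 81 ≤ 20 := by
      have h5 : (3 : ℝ) * Real.logb 2 81 = Real.logb 2 (81 ^ 3) := by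
        rw [Real.logb_pow]; norm_num
      rw [h5, Real.logb_le_iff_le_rpow (by norm_num) (by norm_num)]
      norm_num
    rw [h3] at h2
    nlinarith
  refine regular_of_chain hr hR hsep hcov htr K ?_ x hx ?_
  · refine le_trans ?_ hρ
    apply mul_le_mul_of_nonneg_right _ hR.le
    linarith
  · intro n Gn h0 hn
    have hf0 : Finite (Gn 0) := by rw [h0]; exact hfin
    have h1 := chain_card' Gn hf0 hn n le_rfl
    have hfn : Finite (Gn n) :=
      Finite.of_injective (Subgroup.inclusion h1.1) (Subgroup.inclusion_injective h1.1)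
    have h2 : 1 ≤ Nat.card (Gn n) := Nat.card_pos
    have h3 : 2 ^ n ≤ J * 81 ^ d := by
      calc 2 ^ n = 1 * 2 ^ n := (one_mul _).symm
        _ ≤ _ := Nat.mul_le_mul_right _ h2
        _ ≤ _ := h1.2
        _ ≤ _ := by rw [h0]; exact hcard
    rw [hK]
    exact (Nat.le_log_iff_pow_le (by norm_num) (by positivity)).mpr h3

/-- matrices of isometries -/
noncomputable def mat (d : ℕ) : (E d ≃ₗᵢ[ℝ] E d) →* Matrix (Fin d) (Fin d) ℂ where
  toFun a := (LinearMap.toMatrix (EuclideanSpace.basisFun (Fin d) ℝ).toBasis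
    (EuclideanSpace.basisFun (Fin d) ℝ).toBasis (L a)).map (algebraMap ℝ ℂ)
  map_one' := by
    have : L (1 : E d ≃ₗᵢ[ℝ] E d) = LinearMap.id := rfl
    rw [this, LinearMap.toMatrix_id]
    exact Matrix.map_one _ (map_zero _) (map_one _)
  map_mul' a b := by
    have : L (a * b) = (L a).comp (L b) := rfl
    rw [this, LinearMap.toMatrix_comp _ (EuclideanSpace.basisFun (Fin d) ℝ).toBasis, Matrix.map_mul]

theorem mat_inj (d : ℕ) : Function.Injective (mat d) := by
  intro a b hab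
  have h1 : LinearMap.toMatrix (EuclideanSpace.basisFun (Fin d) ℝ).toBasis
      (EuclideanSpace.basisFun (Fin d) ℝ).toBasis (L a)
      = LinearMap.toMatrix (EuclideanSpace.basisFun (Fin d) ℝ).toBasis
      (EuclideanSpace.basisFun (Fin d) ℝ).toBasis (L b) :=
    Matrix.map_injective (algebraMap ℝ ℂ).injective hab
  have h2 : L a = L b := (LinearMap.toMatrix _ _).injective h1
  ext1 v
  exact congrArg (fun f : Module.End ℝ (E d) => f v) h2

/-- Main theorem. -/
theorem result :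
    (∀ (d : ℕ) (R ρ : ℝ) (X : Set (EuclideanSpace ℝ (Fin d))) (J : ℕ), 0 < R → IsDelone X R →
      ClustersEquivalent X ρ →
      (∃ x ∈ X, ∃ A ≤ LocalGroup X x ((11 * d + 4) * R), (∀ a ∈ A, ∀ b ∈ A, a * b = b * a) ∧
        (A.subgroupOf (LocalGroup X x ((11 * d + 4) * R))).index ≤ J) →
      (31 * d + 8 + 3 * Real.logb 2 J) * R ≤ ρ → Regular X) ∧
    (JordanCollins → ∃ c : ℝ, ∀ d : ℕ, 2 ≤ d → ∀ R : ℝ, 0 < R →
      ∀ X : Set (EuclideanSpace ℝ (Fin d)), IsDelone X R →
        ClustersEquivalent X (c * ((d : ℝ) * Real.log (d : ℝ)) * R) → Regular X) := by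
  refine ⟨fun d R ρ X J hR hX hcl hJ hρ => part1 d R ρ X J hR hX hcl hJ hρ, ?_⟩
  rintro ⟨K, hK⟩
  refine ⟨(44 + 3 * Real.logb 2 (K + 1)) / Real.log 2, fun d hd R hR X hX hcl => ?_⟩
  have hd2 : (2 : ℝ) ≤ d := by exact_mod_cast hd
  have hlog2 : 0 < Real.log 2 := Real.log_pos (by norm_num)
  have hK0 : 0 ≤ Real.logb 2 (K + 1) :=
    Real.logb_nonneg (by norm_num) (by have : (0 : ℝ) ≤ K := Nat.cast_nonneg K; linarith)
  set Λ := Real.logb 2 d with hΛ
  have hΛ1 : 1 ≤ Λ := by
    rw [hΛ, Real.le_logb_iff_rpow_le (by norm_num) (by linarith)]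
    simpa using hd2
  have hc : (44 + 3 * Real.logb 2 (K + 1)) / Real.log 2 * ((d : ℝ) * Real.log (d : ℝ)) * R
      = (44 + 3 * Real.logb 2 (K + 1)) * (d * Λ) * R := by
    have h1 : Real.log (d : ℝ) = Λ * Real.log 2 := by
      rw [hΛ, Real.logb, div_mul_cancel₀ _ hlog2.ne']
    rw [h1]; field_simp
  rw [hc] at hcl
  set J := (K + 1) ^ d * (d + 1).factorial with hJdef
  have hJlog : Real.logb 2 J ≤ d * Real.logb 2 (K + 1) + 3 * (d * Λ) := by
    rw [hJdef]; push_cast
    rw [Real.logb_mul (by positivity) (by positivity), Real.logb_pow]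
    have h1 : ((d + 1).factorial : ℝ) ≤ ((d : ℝ) + 1) ^ (d + 1) := by
      exact_mod_cast Nat.factorial_le_pow (d + 1)
    have h2 : Real.logb 2 ((d + 1).factorial : ℝ) ≤ (d + 1) * Real.logb 2 (d + 1) := by
      have := Real.logb_le_logb_of_le (b := 2) (by norm_num) (by positivity) h1
      rw [Real.logb_pow] at this
      exact_mod_cast this
    have h3 : Real.logb 2 ((d : ℝ) + 1) ≤ 2 * Λ := by
      have : (2 : ℝ) * Λ = Real.logb 2 ((d : ℝ) ^ 2) := by rw [Real.logb_pow]; norm_num [hΛ]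
      rw [this]
      apply Real.logb_le_logb_of_le (by norm_num) (by positivity)
      nlinarith
    have h4 : ((d : ℝ) + 1) * Real.logb 2 ((d : ℝ) + 1) ≤ (3 / 2 * d) * (2 * Λ) := by
      apply mul_le_mul (by linarith) h3 (Real.logb_nonneg (by norm_num) (by linarith))
        (by positivity)
    nlinarith
  obtain ⟨x, hx, -⟩ := hX.2 0
  have hdΛ : (d : ℝ) ≤ d * Λ := by nlinarith
  have hρ : (31 * (d : ℝ) + 8 + 3 * Real.logb 2 J) * R
      ≤ (44 + 3 * Real.logb 2 (K + 1)) * (d * Λ) * R := by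
    apply mul_le_mul_of_nonneg_right _ hR.le
    have h1 : Real.logb 2 ((K : ℝ) + 1) * d ≤ Real.logb 2 ((K : ℝ) + 1) * (d * Λ) :=
      mul_le_mul_of_nonneg_left hdΛ hK0
    nlinarith
  refine part1 d R _ X J hR hX hcl ⟨x, hx, ?_⟩ hρ
  -- the finite matrix group
  have hfin : Finite (LocalGroup X x ((11 * d + 4) * R)) := by
    obtain ⟨⟨r, hr, hsep⟩, hcov⟩ := hX
    have e0 : (11 * (d : ℝ) + 4) * R = 4 * R + 11 * R * d := by ring
    rw [LocalGroup_eq, e0]
    refine (S_near hr hR hsep hcov (htr_of hcl) ?_ x).1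
    refine le_trans ?_ hρ
    have hlogJ : 0 ≤ Real.logb 2 J := Real.logb_nonneg (by norm_num) (by
      have : 1 ≤ J := Nat.one_le_iff_ne_zero.mpr (by positivity)
      exact_mod_cast this)
    have : 0 ≤ (20 * (d : ℝ) + 3 + 3 * Real.logb 2 J) * R := by positivity
    nlinarith
  set G := LocalGroup X x ((11 * d + 4) * R) with hG
  let φ : (E d ≃ᵢ E d) →* Matrix.GeneralLinearGroup (Fin d) ℂ := ((mat d).comp (linHom d)).toHomUnits
  have hφ : ∀ g ∈ G, ∀ h ∈ G, φ g = φ h → g = h := by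
    intro g hg h hh hgh
    rw [hG, LocalGroup_eq] at hg hh
    have h1 : mat d (linHom d g) = mat d (linHom d h) := congrArg Units.val hgh
    exact linHom_injOn hg.1 hh.1 (mat_inj d h1)
  have hfin' : Finite (G.map φ) := Finite.of_surjective _ (φ.subgroupMap_surjective G)
  obtain ⟨A, hA, hcomm, hind⟩ := hK d (G.map φ) hfin'
  refine ⟨A.comap φ ⊓ G, inf_le_right, ?_, ?_⟩
  · rintro a ⟨ha1, ha2⟩ b ⟨hb1, hb2⟩
    apply hφ _ (G.mul_mem ha2 hb2) _ (G.mul_mem hb2 ha2)
    rw [map_mul, map_mul]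
    exact hcomm _ ha1 _ hb1
  · have h1 : (A.comap φ ⊓ G).subgroupOf G = (A.subgroupOf (G.map φ)).comap (φ.subgroupMap G) := by
      ext g
      simp only [Subgroup.mem_subgroupOf, Subgroup.mem_inf, Subgroup.mem_comap]
      constructor
      · rintro ⟨h1, -⟩; exact h1
      · intro h1; exact ⟨h1, g.2⟩
    rw [h1, Subgroup.index_comap_of_surjective _ (φ.subgroupMap_surjective G)]
    refine hind.trans ?_
    rw [hJdef]
    exact Nat.mul_le_mul_right _ (Nat.pow_le_pow_left (Nat.le_succ K) d)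

end Pool.Agent.Results.MP_e6a378_co.AbelianIndex
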